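import Pool.Agent.H28R3.Threshold

set_option autoImplicit false

namespace Pool.Agent.Results.MP_153aba_co.OddCycleThreshold

open Filter Topology Pool.Agent.H28R3

/-- The threshold bias of the Waiter-Client odd cycle game is `(1 / c₀ + o(1)) n`, where
`artanh c₀ - c₀ = 2`, i.e. `1 / c₀ = 1.00502...`; in particular it is not `(1 + o(1)) n`.
The lower bound holds for both conventions for a last incomplete round. -/
theorem result :
    ∃ c₀ : ℝ, 0 < c₀ ∧ c₀ < 1 ∧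
      (Real.log (1 + c₀) - Real.log (1 - c₀)) / 2 - c₀ = 2 ∧
      1.005 < 1 / c₀ ∧ 1 / c₀ < 1.00503 ∧
      (∀ c : ℝ, c₀ < c → c < 1 → ∀ᶠ n : ℕ in atTop, ∀ q : ℕ, n ≤ q → (q : ℝ) ≤ n / c →
        ∀ r : LastRound, WaiterWins r n q) ∧
      (∀ (r : LastRound) (ε : ℝ), 0 < ε →
        ∀ᶠ n : ℕ in atTop, (1 / c₀ - ε) * n ≤ (threshold r n : ℝ)) ∧
      Tendsto (fun n : ℕ => (threshold LastRound.waiterTakesAll n : ℝ) / n) atTop
        (𝓝 (1 / c₀)) ∧
      ∀ r : LastRound, ¬ Tendsto (fun n : ℕ => (threshold r n : ℝ) / n) atTop (𝓝 1) := by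
  obtain ⟨c₀, h1, h2, h3⟩ := exists_root
  have hc0 : 0 < c₀ := by linarith
  have hc1 : c₀ < 1 := by
    have : (200 / 201 : ℝ) < 1 := by norm_num
    linarith
  have hinv1 : 1.005 < 1 / c₀ := by
    rw [lt_div_iff₀ hc0]
    have : (1.005 : ℝ) * (200 / 201) = 1 := by norm_num
    nlinarith
  have hinv2 : 1 / c₀ < 1.00503 := by
    rw [div_lt_iff₀ hc0]
    nlinarith
  have hmono : ∀ c, c₀ < c → c < 1 → 2 < fA c := by
    intro c hc hc'
    rw [← h3]
    exact fA_mono ⟨hc0.le, hc1⟩ ⟨by linarith, hc'⟩ hc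
  have hmono' : ∀ c, 0 < c → c < c₀ → fA c < 2 := by
    intro c hc hc'
    rw [← h3]
    exact fA_mono ⟨hc.le, by linarith⟩ ⟨hc0.le, hc1⟩ hc'
  have hlow : ∀ (r : LastRound) (ε : ℝ), 0 < ε →
      ∀ᶠ n : ℕ in atTop, (1 / c₀ - ε) * n ≤ (threshold r n : ℝ) := by
    intro r ε hε
    -- choose c slightly larger than c₀
    obtain ⟨c, hcc, hc', hcε⟩ : ∃ c, c₀ < c ∧ c < 1 ∧ 1 / c₀ - ε / 2 < 1 / c := by
      have hcont : ContinuousAt (fun x : ℝ => 1 / x) c₀ :=
        continuousAt_const.div continuousAt_id hc0.ne'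
      have hev : ∀ᶠ x in 𝓝 c₀, 1 / c₀ - ε / 2 < 1 / x :=
        hcont.eventually (lt_mem_nhds (by linarith))
      have hev2 : ∀ᶠ x in 𝓝[>] c₀, 1 / c₀ - ε / 2 < 1 / x := hev.filter_mono nhdsWithin_le_nhds
      have hev3 : ∀ᶠ x in 𝓝[>] c₀, c₀ < x := eventually_mem_nhdsWithin
      have hev4 : ∀ᶠ x in 𝓝[>] c₀, x < 1 := (gt_mem_nhds hc1).filter_mono nhdsWithin_le_nhds
      obtain ⟨c, ha, hb, hd⟩ := (hev3.and (hev4.and hev2)).exists
      exact ⟨c, ha, hb, hd⟩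
    have hcpos : 0 < c := by linarith
    filter_upwards [threshold_lower hcpos hc' (hmono c hcc hc') r,
      eventually_ge_atTop ⌈2 / ε⌉₊] with n hn hn2
    have h4 : 2 / ε ≤ n := (Nat.le_ceil _).trans (by exact_mod_cast hn2)
    rw [div_le_iff₀ hε] at h4
    have h5 : (n : ℝ) / c = 1 / c * n := by ring
    rw [h5] at hn
    have hn0 : (0 : ℝ) ≤ n := Nat.cast_nonneg n
    nlinarith
  have hup : ∀ (ε : ℝ), 0 < ε →
      ∀ n : ℕ, (threshold LastRound.waiterTakesAll n : ℝ) ≤ (1 / c₀ + ε) * n := by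
    intro ε hε
    obtain ⟨c, hcc, hc', hcε⟩ : ∃ c, c < c₀ ∧ 0 < c ∧ 1 / c < 1 / c₀ + ε := by
      have hcont : ContinuousAt (fun x : ℝ => 1 / x) c₀ :=
        continuousAt_const.div continuousAt_id hc0.ne'
      have hev : ∀ᶠ x in 𝓝 c₀, 1 / x < 1 / c₀ + ε :=
        hcont.eventually (gt_mem_nhds (by linarith))
      have hev2 : ∀ᶠ x in 𝓝[<] c₀, 1 / x < 1 / c₀ + ε := hev.filter_mono nhdsWithin_le_nhds
      have hev3 : ∀ᶠ x in 𝓝[<] c₀, x < c₀ := eventually_mem_nhdsWithin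
      have hev4 : ∀ᶠ x in 𝓝[<] c₀, 0 < x := (lt_mem_nhds hc0).filter_mono nhdsWithin_le_nhds
      obtain ⟨c, ha, hb, hd⟩ := (hev3.and (hev4.and hev2)).exists
      exact ⟨c, ha, hb, hd⟩
    intro n
    have h4 := threshold_upper hc' (by linarith) (hmono' c hc' hcc) n
    have h5 : (n : ℝ) / c = 1 / c * n := by ring
    rw [h5] at h4
    have hn0 : (0 : ℝ) ≤ n := Nat.cast_nonneg n
    nlinarith
  refine ⟨c₀, hc0, hc1, h3, hinv1, hinv2, ?_, hlow, ?_, ?_⟩
  · intro c hc hc'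
    exact waiter_wins (by linarith) hc' (hmono c hc hc')
  · rw [Metric.tendsto_atTop']
    intro ε hε
    obtain ⟨N, hN⟩ := eventually_atTop.mp
      ((hlow LastRound.waiterTakesAll (ε / 2) (by linarith)).and (eventually_ge_atTop 1))
    refine ⟨N, fun n hn => ?_⟩
    obtain ⟨ha, hb⟩ := hN n hn.le
    have hn0 : (0 : ℝ) < n := by exact_mod_cast hb
    have hc := hup (ε / 2) (by linarith) n
    rw [Real.dist_eq, abs_lt]
    constructor
    · have : 1 / c₀ - ε / 2 ≤ (threshold LastRound.waiterTakesAll n : ℝ) / n := by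
        rw [le_div_iff₀ hn0]; exact ha
      linarith
    · have : (threshold LastRound.waiterTakesAll n : ℝ) / n ≤ 1 / c₀ + ε / 2 := by
        rw [div_le_iff₀ hn0]; exact hc
      linarith
  · intro r hlim
    have h4 : ∀ᶠ n : ℕ in atTop, (threshold r n : ℝ) / n < 1.002 :=
      hlim.eventually (gt_mem_nhds (by norm_num))
    have h5 := hlow r 0.003 (by norm_num)
    obtain ⟨n, ha, hb, hd⟩ := (h4.and (h5.and (eventually_ge_atTop 1))).exists
    have hn0 : (0 : ℝ) < n := by exact_mod_cast hd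
    rw [div_lt_iff₀ hn0] at ha
    nlinarith

end Pool.Agent.Results.MP_153aba_co.OddCycleThreshold
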